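import Mathlib

set_option autoImplicit false

namespace Pool.Agent.K3h30.Zeck

open Nat

/-- The parity of the Zeckendorf sum of digits of `n`: `true` if it is odd. -/
def sZ (n : ℕ) : Bool := decide ((Nat.zeckendorf n).length % 2 = 1)

/-- The last Zeckendorf digit of `n` is zero. -/
def Lg (n : ℕ) : Prop := 2 ∉ Nat.zeckendorf n

instance (n : ℕ) : Decidable (Lg n) := by unfold Lg; infer_instance

/-- The shift of the Zeckendorf representation. -/
def sg (n : ℕ) : ℕ := ((Nat.zeckendorf n).map (fun i => fib (i + 1))).sum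

theorem zeck_fib_add (j t : ℕ) (ht : t < fib (j + 1)) :
    Nat.zeckendorf (fib (j + 2) + t) = (j + 2) :: Nat.zeckendorf t := by
  have h : List.IsZeckendorfRep ((j + 2) :: Nat.zeckendorf t) := by
    unfold List.IsZeckendorfRep
    rw [List.cons_append]
    refine List.IsChain.cons (Nat.isZeckendorfRep_zeckendorf t) ?_
    intro a ha
    rcases Nat.eq_zero_or_pos t with h0 | h0
    · subst h0
      simp only [Nat.zeckendorf_zero, List.nil_append, List.head?_cons, Option.mem_some_iff] at ha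
      omega
    · rw [Nat.zeckendorf_of_pos h0, List.cons_append, List.head?_cons, Option.mem_some_iff] at ha
      subst ha
      have : Nat.greatestFib t < j + 1 := Nat.greatestFib_lt.2 ht
      omega
  have h2 := Nat.zeckendorf_sum_fib h
  rw [List.map_cons, List.sum_cons, Nat.sum_zeckendorf_fib] at h2
  exact h2

/-- Every positive number is `F (j + 2) + t` with `t < F (j + 1)`. -/
theorem exists_repr (n : ℕ) (hn : 0 < n) : ∃ j t, t < fib (j + 1) ∧ n = fib (j + 2) + t := by
  have h1 := Nat.fib_greatestFib_le n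
  have h2 := Nat.lt_fib_greatestFib_add_one n
  have h3 : 2 ≤ Nat.greatestFib n := Nat.le_greatestFib.2 (by rw [Nat.fib_two]; omega)
  obtain ⟨j, hj⟩ : ∃ j, Nat.greatestFib n = j + 2 := ⟨Nat.greatestFib n - 2, by omega⟩
  rw [hj] at h1 h2
  refine ⟨j, n - fib (j + 2), ?_, by omega⟩
  rw [show j + 2 + 1 = (j + 1) + 2 from rfl, Nat.fib_add_two (n := j + 1)] at h2
  have : j + 1 + 1 = j + 2 := rfl
  rw [this] at h2
  omega

theorem sZ_zero : sZ 0 = false := by simp [sZ]
theorem Lg_zero : Lg 0 := by simp [Lg]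
theorem sg_zero : sg 0 = 0 := by simp [sg]

theorem dec_succ (k : ℕ) : decide ((k + 1) % 2 = 1) = !decide (k % 2 = 1) := by
  rcases Nat.mod_two_eq_zero_or_one k with h | h
  · have h1 : (k + 1) % 2 = 1 := by omega
    simp [h, h1]
  · have h1 : (k + 1) % 2 = 0 := by omega
    simp [h, h1]

theorem sZ_fib_add (j t : ℕ) (ht : t < fib (j + 1)) : sZ (fib (j + 2) + t) = !sZ t := by
  unfold sZ
  rw [zeck_fib_add j t ht, List.length_cons]
  exact dec_succ _

theorem Lg_fib_add (j t : ℕ) (ht : t < fib (j + 1)) : Lg (fib (j + 2) + t) ↔ (j ≠ 0 ∧ Lg t) := by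
  unfold Lg
  rw [zeck_fib_add j t ht, List.mem_cons]
  constructor
  · intro h
    push Not at h
    exact ⟨fun h0 => h.1 (by omega), h.2⟩
  · rintro ⟨h1, h2⟩ h3
    rcases h3 with h3 | h3
    · omega
    · exact h2 h3

theorem sg_fib_add (j t : ℕ) (ht : t < fib (j + 1)) : sg (fib (j + 2) + t) = fib (j + 3) + sg t := by
  unfold sg
  rw [zeck_fib_add j t ht, List.map_cons, List.sum_cons]

theorem sg_fib (j : ℕ) : sg (fib (j + 2)) = fib (j + 3) := by
  have := sg_fib_add j 0 (fib_pos.2 (by omega))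
  simpa [sg_zero] using this

theorem sg_succ (n : ℕ) : sg (n + 1) = sg n + (if Lg n then 2 else 1) := by
  induction n using Nat.strong_induction_on with
  | _ n ih =>
    rcases Nat.eq_zero_or_pos n with h0 | h0
    · subst h0
      rw [if_pos Lg_zero, sg_zero]
      have := sg_fib 0
      exact this
    · obtain ⟨j, t, ht, rfl⟩ := exists_repr n h0
      rw [sg_fib_add j t ht]
      rcases Nat.eq_zero_or_pos j with hj | hj
      · subst hj
        have ht0 : t = 0 := by simpa using ht
        subst ht0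
        have h1 : ¬ Lg (fib (0 + 2) + 0) := by
          rw [Lg_fib_add 0 0 (by simp)]
          simp
        rw [if_neg h1, sg_zero]
        have := sg_fib 1
        exact this
      · have hL : Lg (fib (j + 2) + t) ↔ Lg t := by
          rw [Lg_fib_add j t ht]
          exact ⟨fun h => h.2, fun h => ⟨by omega, h⟩⟩
        have htn : t < fib (j + 2) + t := by
          have : 0 < fib (j + 2) := fib_pos.2 (by omega)
          omega
        have hi := ih t htn
        simp only [hL]
        by_cases hc : t + 1 < fib (j + 1)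
        · rw [show fib (j + 2) + t + 1 = fib (j + 2) + (t + 1) from rfl, sg_fib_add j (t + 1) hc, hi]
          ring
        · have ht1 : t + 1 = fib (j + 1) := by omega
          have h3 : fib (j + 2) + t + 1 = fib (j + 3) := by
            rw [show j + 3 = (j + 1) + 2 from rfl, Nat.fib_add_two (n := j + 1)]
            have : j + 1 + 1 = j + 2 := rfl
            rw [this]
            omega
          rw [h3, show j + 3 = (j + 1) + 2 from rfl, sg_fib (j + 1)]
          have h4 : sg (t + 1) = fib (j + 2) := by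
            rw [ht1]
            obtain ⟨i, rfl⟩ : ∃ i, j = i + 1 := ⟨j - 1, by omega⟩
            exact sg_fib i
          rw [h4] at hi
          rw [show j + 1 + 3 = (j + 2) + 2 from rfl, Nat.fib_add_two (n := j + 2)]
          have : j + 2 + 1 = j + 3 := rfl
          have h5 : j + 1 + 2 = j + 3 := rfl
          rw [this, hi]
          ring

theorem isRep_map (l : List ℕ) (h : List.IsZeckendorfRep l) :
    List.IsZeckendorfRep (l.map (· + 1)) := by
  unfold List.IsZeckendorfRep at *
  have h1 : List.IsChain (fun a b : ℕ => b + 2 ≤ a) ((l ++ [0]).map (· + 1)) := by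
    rw [List.isChain_map]
    refine h.imp ?_
    intro a b hab
    omega
  rw [List.map_append] at h1
  simp only [List.map_cons, List.map_nil, zero_add] at h1
  rw [List.isChain_append] at h1 ⊢
  refine ⟨h1.1, by simp, ?_⟩
  intro x hx y hy
  simp only [List.head?_cons, Option.mem_some_iff] at hy
  subst hy
  have := h1.2.2 x hx 1 (by simp)
  omega

theorem zeck_sg (n : ℕ) : Nat.zeckendorf (sg n) = (Nat.zeckendorf n).map (· + 1) := by
  have h := Nat.zeckendorf_sum_fib (isRep_map _ (Nat.isZeckendorfRep_zeckendorf n))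
  rw [List.map_map] at h
  exact h

theorem two_le_of_mem {n a : ℕ} (h : a ∈ Nat.zeckendorf n) : 2 ≤ a := by
  have h1 := Nat.isZeckendorfRep_zeckendorf n
  unfold List.IsZeckendorfRep at h1
  have : IsTrans ℕ (fun a b : ℕ => b + 2 ≤ a) := ⟨fun a b c hab hbc => by omega⟩
  rw [List.isChain_iff_pairwise, List.pairwise_append] at h1
  have := h1.2.2 a h 0 (by simp)
  omega

theorem Lg_sg (n : ℕ) : Lg (sg n) := by
  unfold Lg
  rw [zeck_sg]
  intro h
  rw [List.mem_map] at h
  obtain ⟨a, ha, h1⟩ := h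
  have := two_le_of_mem ha
  omega

theorem sZ_sg (n : ℕ) : sZ (sg n) = sZ n := by
  unfold sZ
  rw [zeck_sg, List.length_map]

theorem zeck_sg_succ (n : ℕ) (hn : Lg n) :
    Nat.zeckendorf (sg n + 1) = (Nat.zeckendorf n).map (· + 1) ++ [2] := by
  have hrep : List.IsZeckendorfRep ((Nat.zeckendorf n).map (· + 1) ++ [2]) := by
    unfold List.IsZeckendorfRep
    rw [List.append_assoc, List.isChain_append]
    have h1 := isRep_map _ (Nat.isZeckendorfRep_zeckendorf n)
    unfold List.IsZeckendorfRep at h1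
    rw [List.isChain_append] at h1
    refine ⟨h1.1, by simp, ?_⟩
    intro x hx y hy
    have hy' : y = 2 := by simpa using hy.symm
    subst hy'
    have hx1 := List.mem_of_mem_getLast? hx
    rw [List.mem_map] at hx1
    obtain ⟨a, ha, h2⟩ := hx1
    have h3 := two_le_of_mem ha
    have h4 : a ≠ 2 := fun h => hn (h ▸ ha)
    omega
  have h := Nat.zeckendorf_sum_fib hrep
  rw [List.map_append, List.sum_append, List.map_map] at h
  have h2 : (List.map fib [2]).sum = 1 := by simp
  rw [h2] at h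
  exact h

theorem not_Lg_sg_succ (n : ℕ) (hn : Lg n) : ¬ Lg (sg n + 1) := by
  unfold Lg
  rw [zeck_sg_succ n hn]
  simp

theorem sZ_sg_succ (n : ℕ) (hn : Lg n) : sZ (sg n + 1) = !sZ n := by
  unfold sZ
  rw [zeck_sg_succ n hn, List.length_append, List.length_map]
  exact dec_succ _

theorem sg_lt_succ (n : ℕ) : sg n < sg (n + 1) := by
  rw [sg_succ]
  split_ifs <;> omega

theorem sg_strictMono : StrictMono sg := strictMono_nat_of_lt_succ sg_lt_succ

theorem le_sg (n : ℕ) : n ≤ sg n := sg_strictMono.le_apply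

/-- every number is the beginning or the second letter of a block -/
theorem block (m : ℕ) : ∃ n, m = sg n ∨ (Lg n ∧ m = sg n + 1) := by
  induction m with
  | zero => exact ⟨0, Or.inl sg_zero.symm⟩
  | succ m ih =>
    obtain ⟨n, h | ⟨h1, h2⟩⟩ := ih
    · by_cases hn : Lg n
      · exact ⟨n, Or.inr ⟨hn, by omega⟩⟩
      · refine ⟨n + 1, Or.inl ?_⟩
        rw [sg_succ, if_neg hn, h]
    · refine ⟨n + 1, Or.inl ?_⟩
      rw [sg_succ, if_pos h1, h2]

theorem block_of_Lg {m : ℕ} (h : Lg m) : ∃ n, m = sg n := by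
  obtain ⟨n, h1 | ⟨h1, h2⟩⟩ := block m
  · exact ⟨n, h1⟩
  · exact absurd (h2 ▸ h) (not_Lg_sg_succ n h1)

theorem block_of_not_Lg {m : ℕ} (h : ¬ Lg m) : ∃ n, Lg n ∧ m = sg n + 1 := by
  obtain ⟨n, h1 | ⟨h1, h2⟩⟩ := block m
  · exact absurd (h1 ▸ Lg_sg n) h
  · exact ⟨n, h1, h2⟩

/-- a short letter follows a long letter of the other sign -/
theorem A1 {m : ℕ} (h : ¬ Lg (m + 1)) : Lg m ∧ sZ m = !sZ (m + 1) := by
  obtain ⟨n, h1, h2⟩ := block_of_not_Lg h
  have h3 : m = sg n := by omega
  subst h3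
  refine ⟨Lg_sg n, ?_⟩
  rw [sZ_sg_succ n h1, sZ_sg, Bool.not_not]

/-- a short letter is followed by a long letter -/
theorem A2 {m : ℕ} (h : ¬ Lg m) : Lg (m + 1) := by
  obtain ⟨n, h1, h2⟩ := block_of_not_Lg h
  have h3 : m + 1 = sg (n + 1) := by rw [sg_succ, if_pos h1, h2]
  rw [h3]
  exact Lg_sg _

/-- if two consecutive letters are long, then the first one is preceded by a short letter of the
same sign -/
theorem S1 {m : ℕ} (h : Lg m) (h' : Lg (m + 1)) : ∃ k, m = k + 1 ∧ ¬ Lg k ∧ sZ k = sZ m := by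
  obtain ⟨n, rfl⟩ := block_of_Lg h
  have hn : ¬ Lg n := by
    intro hn
    exact not_Lg_sg_succ n hn h'
  obtain ⟨j, rfl⟩ : ∃ j, n = j + 1 := ⟨n - 1, by
    have : n ≠ 0 := fun h0 => hn (h0 ▸ Lg_zero)
    omega⟩
  obtain ⟨h1, h2⟩ := A1 hn
  refine ⟨sg j + 1, ?_, not_Lg_sg_succ j h1, ?_⟩
  · rw [sg_succ, if_pos h1]
  · rw [sZ_sg_succ j h1, sZ_sg, h2, Bool.not_not]

/-- `a b a` is preceded by `a` -/
theorem T1 {m : ℕ} (h : ¬ Lg (m + 1)) (h' : sZ m = sZ (m + 2)) :
    ∃ k, m = k + 1 ∧ Lg k ∧ sZ k = sZ m := by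
  obtain ⟨h1, h2⟩ := A1 h
  obtain ⟨n, rfl⟩ := block_of_Lg h1
  have hn : Lg n := by
    by_contra hn
    have : sg (n + 1) = sg n + 1 := by rw [sg_succ, if_neg hn]
    exact h (this ▸ Lg_sg _)
  have h3 : sg n + 2 = sg (n + 1) := by rw [sg_succ, if_pos hn]
  rw [h3, sZ_sg, sZ_sg] at h'
  have hn1 : Lg (n + 1) := by
    by_contra hc
    have := (A1 hc).2
    rw [h'] at this
    simp at this
  obtain ⟨j, rfl, hj, hs⟩ := S1 hn hn1
  refine ⟨sg j, ?_, Lg_sg j, ?_⟩
  · rw [sg_succ, if_neg hj]
  · rw [sZ_sg, sZ_sg, hs]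

end Pool.Agent.K3h30.Zeck
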