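import Pool.Agent.K3h30.Zeck.Parity

set_option autoImplicit false

namespace Pool.Agent.K3h30.Zeck

open Nat

/-- equality of binary windows -/
def B (i j t : ℕ) : Prop := ∀ r < t, sZ (i + r) = sZ (j + r)

theorem B.mono {i j t t' : ℕ} (h : B i j t) (h' : t' ≤ t) : B i j t' := fun r hr => h r (by omega)

/-- table version of `B` -/
def tB (i j t : ℕ) : Bool := (List.range t).all (fun r => tS (i + r) == tS (j + r))

theorem table_B {i j t : ℕ} (hi : i + t ≤ 18) (hj : j + t ≤ 18) (h : B i j t) : tB i j t = true := by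
  unfold tB
  rw [List.all_eq_true]
  intro r hr
  rw [List.mem_range] at hr
  have h1 := h r hr
  rw [tSL (by omega), tSL (by omega), h1]
  simp

/-- finite check for binary windows -/
def chkB (N C : ℕ) : Bool :=
  (List.range N).all fun a => (List.range N).all fun a' => (List.range N).all fun t =>
    !(decide (a < a') && decide (a' + t < N) && (tS (a + t) != tS (a' + t)) && tB a a' t) ||
      decide (t ≤ C)

theorem B_of_chk {N C : ℕ} (hN : N ≤ 18) (hc : chkB N C = true) {a a' t : ℕ}
    (h1 : a < a') (h2 : a' + t < N) (h3 : sZ (a + t) ≠ sZ (a' + t)) (h4 : B a a' t) : t ≤ C := by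
  unfold chkB at hc
  rw [List.all_eq_true] at hc
  have e1 := hc a (List.mem_range.2 (by omega))
  rw [List.all_eq_true] at e1
  have e2 := e1 a' (List.mem_range.2 (by omega))
  rw [List.all_eq_true] at e2
  have e3 := e2 t (List.mem_range.2 (by omega))
  rw [tSL (n := a + t) (by omega), tSL (n := a' + t) (by omega),
    table_B (by omega) (by omega) h4] at e3
  have h8 : (sZ (a + t) != sZ (a' + t)) = true := bne_iff_ne.2 h3
  rw [h8] at e3
  simpa [h1, h2] using e3

/-- the last mismatch of the letters -/
theorem last_mismatch (i j : ℕ) : ∀ t, W i j t ∨ ∃ r < t, U (i + r) ≠ U (j + r) ∧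
    W (i + r + 1) (j + r + 1) (t - (r + 1)) := by
  intro t
  induction t with
  | zero => left; intro r hr; omega
  | succ t ih =>
    by_cases h : U (i + t) = U (j + t)
    · rcases ih with ih | ⟨r, h1, h2, h3⟩
      · left
        intro r hr
        rcases Nat.lt_or_ge r t with h4 | h4
        · exact ih r h4
        · have : r = t := by omega
          subst this
          exact h
      · right
        refine ⟨r, by omega, h2, ?_⟩
        intro s hs
        rcases Nat.lt_or_ge s (t - (r + 1)) with h4 | h4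
        · exact h3 s h4
        · have h5 : i + r + 1 + s = i + t := by omega
          have h6 : j + r + 1 + s = j + t := by omega
          rw [h5, h6]
          exact h
    · right
      refine ⟨t, by omega, h, ?_⟩
      intro s hs
      omega

/-- a mismatch of the lengths (with equal signs), followed by equal letters, cannot be preceded
by equal signs -/
theorem no_left {x y : ℕ} (hL : Lg (x + 1)) (hL' : ¬ Lg (y + 1)) (hs : sZ (x + 1) = sZ (y + 1))
    (hU : U (x + 2) = U (y + 2)) : sZ x ≠ sZ y := by
  obtain ⟨h1, h2⟩ := A1 hL'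
  have h3 : Lg (y + 2) := A2 hL'
  have h4 : Lg (x + 2) := (U_eq.1 hU).1.2 h3
  obtain ⟨k, hk, h5, h6⟩ := S1 hL h4
  have : k = x := by omega
  subst this
  rw [h6, h2, hs]
  cases sZ (y + 1) <;> simp

/-- if a mismatch of the lengths is followed by an equal letter, then the window begins with it -/
theorem mismatch_first {i i' r : ℕ} (hB : B i i' (r + 1)) (hne : U (i + r) ≠ U (i' + r))
    (hU : U (i + r + 1) = U (i' + r + 1)) : r = 0 := by
  by_contra hr
  obtain ⟨s, rfl⟩ : ∃ s, r = s + 1 := ⟨r - 1, by omega⟩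
  have hs := hB (s + 1) (by omega)
  have hs' := hB s (by omega)
  have hl : ¬ (Lg (i + (s + 1)) ↔ Lg (i' + (s + 1))) := fun h => hne (U_eq.2 ⟨h, hs⟩)
  by_cases h1 : Lg (i + s + 1)
  · have h2 : ¬ Lg (i' + s + 1) := fun h => hl (iff_of_true h1 h)
    exact no_left h1 h2 hs hU hs'
  · have h2 : Lg (i' + s + 1) := by
      by_contra h
      exact hl (iff_of_false h1 h)
    exact no_left h2 h1 hs.symm hU.symm hs'.symm

/-- two consecutive mismatches -/
theorem double_mismatch {x y : ℕ} (h0 : sZ x = sZ y) (h1 : sZ (x + 1) = sZ (y + 1))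
    (h2 : sZ (x + 2) = sZ (y + 2)) (h3 : sZ (x + 3) = sZ (y + 3)) (h4 : sZ (x + 4) = sZ (y + 4))
    (hL : Lg (x + 4)) (hL' : ¬ Lg (y + 4)) (hM : ¬ (Lg (x + 3) ↔ Lg (y + 3))) : False := by
  obtain ⟨b1, b2⟩ := A1 hL'
  have a1 : ¬ Lg (x + 3) := fun h => hM (iff_of_true h b1)
  obtain ⟨a2, a3⟩ := A1 (m := x + 2) a1
  have a4 : sZ (x + 2) = sZ (x + 4) := by
    have e1 : sZ (x + 3) = !sZ (y + 4) := by rw [h3, b2]
    have e2 : sZ (x + 2 + 1) = sZ (x + 3) := rfl
    rw [a3, e2, e1, h4]
    cases sZ (y + 4) <;> rfl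
  obtain ⟨k, hk, a5, a6⟩ := T1 (m := x + 2) a1 a4
  have hk' : k = x + 1 := by omega
  subst hk'
  by_cases hc : Lg (y + 2)
  · obtain ⟨l, hl, c1, c2⟩ := S1 hc b1
    have hl' : l = y + 1 := by omega
    subst hl'
    obtain ⟨c3, c4⟩ := A1 c1
    obtain ⟨l2, hl2, d1, d2⟩ := S1 a5 a2
    have hl3 : l2 = x := by omega
    subst hl3
    rw [d2, c4, h1] at h0
    revert h0
    cases sZ (y + 1) <;> simp
  · obtain ⟨c3, c4⟩ := A1 (m := y + 1) hc
    have e2 : sZ (y + 1 + 1) = sZ (y + 2) := rfl
    rw [e2] at c4
    rw [a6, c4, h2] at h1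
    revert h1
    cases sZ (y + 2) <;> simp

theorem Blem (j : ℕ) {i i' t : ℕ} (h1 : i < i') (h2 : i' + t < fib (j + 5) + fib (j + 3))
    (h3 : sZ (i + t) ≠ sZ (i' + t)) (h4 : B i i' t) : t ≤ fib (j + 2) + (j + 1) % 2 := by
  rcases Nat.lt_or_ge j 3 with hj | hj
  · interval_cases j
    · exact B_of_chk (N := 7) (by norm_num) (by decide +kernel) h1 h2 h3 h4
    · exact B_of_chk (N := 11) (by norm_num) (by decide +kernel) h1 h2 h3 h4
    · exact B_of_chk (N := 18) (by norm_num) (by decide +kernel) h1 h2 h3 h4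
  have hf5 : 5 ≤ fib (j + 2) := by
    have : fib 5 ≤ fib (j + 2) := fib_mono (by omega)
    exact this
  rcases last_mismatch i i' t with hW | ⟨r, hr, hne, hW⟩
  · have := (Xlem j i i' t h1 h2 h3 hW).1
    omega
  have hl : ¬ (Lg (i + r) ↔ Lg (i' + r)) := fun h => hne (U_eq.2 ⟨h, h4 r hr⟩)
  rcases Nat.lt_or_ge (r + 1) t with hrt | hrt
  · -- there are equal letters after the mismatch
    have hU : U (i + r + 1) = U (i' + r + 1) := hW 0 (by omega)
    have hr0 := mismatch_first (h4.mono (by omega)) hne hU
    subst hr0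
    simp only [add_zero, zero_add] at *
    have e1 : i + 1 + (t - 1) = i + t := by omega
    have e2 : i' + 1 + (t - 1) = i' + t := by omega
    have hx := (Xlem j (i + 1) (i' + 1) (t - 1) (by omega) (by omega)
      (by rw [e1, e2]; exact h3) hW).1
    by_cases hp : j % 2 = 1
    · have hz := Zlem j i i' (t - 1) h1 (by omega) (by rw [e1, e2]; exact h3) hW hl
        (iff_of_true (h4 0 (by omega)) hp)
      omega
    · omega
  · -- the last letter is a mismatch
    have htr : t = r + 1 := by omega
    subst htr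
    obtain ⟨k, rfl⟩ : ∃ k, j = k + 1 := ⟨j - 1, by omega⟩
    have hs : sZ (i + r) = sZ (i' + r) := h4 r (by omega)
    have hq : i' + r < fib (k + 6) + fib (k + 4) := by
      have c1 : k + 1 + 5 = k + 6 := by omega
      have c2 : k + 1 + 3 = k + 4 := by omega
      rw [c1, c2] at h2
      omega
    have c3 : k + 1 + 2 = k + 3 := by omega
    rcases last_mismatch i i' r with hW' | ⟨r', hr', hne', hW'⟩
    · rcases Ylem k i i' r h1 hq hs hl hW' with ⟨b1, -⟩ | hE
      · rw [c3]; omega
      · have := hE.le
        omega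
    · rcases Nat.lt_or_ge (r' + 1) r with hrt' | hrt'
      · have hU : U (i + r' + 1) = U (i' + r' + 1) := hW' 0 (by omega)
        have hr0 := mismatch_first (h4.mono (by omega)) hne' hU
        subst hr0
        simp only [add_zero, zero_add] at hW'
        have e1 : i + 1 + (r - 1) = i + r := by omega
        have e2 : i' + 1 + (r - 1) = i' + r := by omega
        rcases Ylem k (i + 1) (i' + 1) (r - 1) (by omega) (by omega) (by rw [e1, e2]; exact hs)
          (by rw [e1, e2]; exact hl) hW' with ⟨b1, -⟩ | hE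
        · rw [c3]; omega
        · have := hE.le
          omega
      · -- two consecutive mismatches
        have hrr : r = r' + 1 := by omega
        subst hrr
        by_contra hcon
        have h5 : 4 ≤ r' + 1 := by omega
        obtain ⟨s, rfl⟩ : ∃ s, r' = s + 3 := ⟨r' - 3, by omega⟩
        have hl' : ¬ (Lg (i + (s + 3)) ↔ Lg (i' + (s + 3))) :=
          fun h => hne' (U_eq.2 ⟨h, h4 (s + 3) (by omega)⟩)
        have g0 := h4 s (by omega)
        have g1 := h4 (s + 1) (by omega)
        have g2 := h4 (s + 2) (by omega)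
        have g3 := h4 (s + 3) (by omega)
        have g4 := h4 (s + 4) (by omega)
        by_cases hL : Lg (i + s + 4)
        · have hL' : ¬ Lg (i' + s + 4) := fun h => hl (iff_of_true hL h)
          exact double_mismatch (x := i + s) (y := i' + s) g0 g1 g2 g3 g4 hL hL' hl'
        · have hL' : Lg (i' + s + 4) := by
            by_contra h
            exact hl (iff_of_false hL h)
          exact double_mismatch (x := i' + s) (y := i + s) g0.symm g1.symm g2.symm g3.symm g4.symm
            hL' hL (fun h => hl' h.symm)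

end Pool.Agent.K3h30.Zeck
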