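import Pool.Agent.K3h30.Zeck.Upper

set_option autoImplicit false

namespace Pool.Agent.K3h30.Zeck

open Nat

/-- finite check for windows with a mismatch of the lengths on the left side -/
def chkZ (N B : ℕ) (e : Bool) : Bool :=
  (List.range N).all fun a => (List.range N).all fun a' => (List.range N).all fun t =>
    !(decide (a < a') && decide (a' + 1 + t < N) && (tS (a + 1 + t) != tS (a' + 1 + t)) &&
        (tL a != tL a') && (decide (tS a = tS a') == e) && tW (a + 1) (a' + 1) t) ||
      decide (t < B)

theorem Z_of_chk {N B : ℕ} {e : Bool} (hN : N ≤ 18) (hc : chkZ N B e = true) {a a' t : ℕ}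
    (h1 : a < a') (h2 : a' + 1 + t < N) (h3 : sZ (a + 1 + t) ≠ sZ (a' + 1 + t))
    (h3' : ¬ (Lg a ↔ Lg a')) (h6 : decide (sZ a = sZ a') = e)
    (h4 : W (a + 1) (a' + 1) t) : t < B := by
  unfold chkZ at hc
  rw [List.all_eq_true] at hc
  have e1 := hc a (List.mem_range.2 (by omega))
  rw [List.all_eq_true] at e1
  have e2 := e1 a' (List.mem_range.2 (by omega))
  rw [List.all_eq_true] at e2
  have e3 := e2 t (List.mem_range.2 (by omega))
  rw [tSL (n := a + 1 + t) (by omega), tSL (n := a' + 1 + t) (by omega), tSL (n := a) (by omega),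
    tSL (n := a') (by omega), tLL (n := a) (by omega), tLL (n := a') (by omega),
    table_W (by omega) (by omega) h4] at e3
  have h5 : decide (Lg a) ≠ decide (Lg a') := by
    rw [ne_eq, decide_eq_decide]; exact h3'
  have h7 : (decide (Lg a) != decide (Lg a')) = true := bne_iff_ne.2 h5
  have h8 : (sZ (a + 1 + t) != sZ (a' + 1 + t)) = true := bne_iff_ne.2 h3
  rw [h6, h7, h8] at e3
  simpa [h1, h2] using e3

/-- the last letter of the block of `b` -/
theorem last_letter {a : ℕ} (h : Lg (a + 1)) : ∃ b, a + 1 = sg (b + 1) ∧ (Lg a ↔ ¬ Lg b) ∧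
    (Lg a → sZ a = sZ b) ∧ (¬ Lg a → sZ a = !sZ b) := by
  obtain ⟨n, hn⟩ := block_of_Lg h
  obtain ⟨b, rfl⟩ : ∃ b, n = b + 1 := ⟨n - 1, by
    have : n ≠ 0 := fun h => by rw [h, sg_zero] at hn; omega
    omega⟩
  refine ⟨b, hn, ?_⟩
  by_cases hb : Lg b
  · have e1 : sg (b + 1) = sg b + 2 := by rw [sg_succ, if_pos hb]
    have e2 : a = sg b + 1 := by omega
    rw [e2]
    refine ⟨iff_of_false (not_Lg_sg_succ b hb) (fun h => h hb), fun h => absurd h (not_Lg_sg_succ b hb),
      fun _ => sZ_sg_succ b hb⟩
  · have e1 : sg (b + 1) = sg b + 1 := by rw [sg_succ, if_neg hb]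
    have e2 : a = sg b := by omega
    rw [e2]
    exact ⟨iff_of_true (Lg_sg b) hb, fun _ => sZ_sg b, fun h => absurd (Lg_sg b) h⟩

theorem Zlem : ∀ j a a' t : ℕ, a < a' → a' + 1 + t < fib (j + 5) + fib (j + 3) →
    sZ (a + 1 + t) ≠ sZ (a' + 1 + t) → W (a + 1) (a' + 1) t → ¬ (Lg a ↔ Lg a') →
    (sZ a = sZ a' ↔ j % 2 = 1) → t < fib (j + 2) := by
  intro j
  induction j with
  | zero =>
    intro a a' t h1 h2 h3 h4 h5 h6
    refine Z_of_chk (N := 7) (B := 1) (e := false) (by norm_num) (by decide +kernel) h1 h2 h3 h5 ?_ h4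
    rw [decide_eq_false_iff_not, h6]
    norm_num
  | succ j ih =>
    intro a a' t h1 h2 h3 h4 h5 h6
    rcases Nat.eq_zero_or_pos j with hj | hj
    · subst hj
      refine Z_of_chk (N := 11) (B := 2) (e := true) (by norm_num) (by decide +kernel) h1 h2 h3 h5
        ?_ h4
      rw [decide_eq_true_eq, h6]
    rcases Nat.eq_zero_or_pos t with h0 | h0
    · subst h0
      exact fib_pos.2 (by omega)
    by_cases h7 : (Lg (a + 1 + t) ↔ Lg (a' + 1 + t))
    · by_cases h8 : Lg (a + 1 + t)
      · -- both positions are beginnings of blocks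
        obtain ⟨P, e1⟩ := block_of_Lg h8
        obtain ⟨Q, e2⟩ := block_of_Lg (h7.1 h8)
        have hPQ : P < Q := by
          rw [← sg_strictMono.lt_iff_lt, ← e1, ← e2]; omega
        have hQ : Q < fib (j + 5) + fib (j + 3) := by
          rw [← sg_strictMono.lt_iff_lt, ← e2]
          have := sg_fibsum (j + 2) (by omega)
          have c1 : j + 2 + 3 = j + 5 := rfl
          have c2 : j + 2 + 1 = j + 3 := rfl
          have c3 : j + 2 + 4 = j + 1 + 5 := by omega
          have c4 : j + 2 + 2 = j + 1 + 3 := by omega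
          rw [c1, c2, c3, c4] at this
          omega
        -- the windows begin with a long letter
        have hU0 := (U_eq.1 (h4 0 h0)).1
        simp only [add_zero] at hU0
        have hLa : Lg (a + 1) := by
          by_cases h9 : Lg a
          · exact hU0.2 (A2 (fun h => h5 (iff_of_true h9 h)))
          · exact A2 h9
        have hLa' : Lg (a' + 1) := hU0.1 hLa
        obtain ⟨b, f1, f2, f3, f4⟩ := last_letter hLa
        obtain ⟨b', g1, g2, g3, g4⟩ := last_letter hLa'
        have hbP : b + 1 ≤ P := by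
          rw [← sg_strictMono.le_iff_le, ← f1, ← e1]; omega
        have hbb : b < b' := by
          have : sg (b + 1) < sg (b' + 1) := by rw [← f1, ← g1]; omega
          have := sg_strictMono.lt_iff_lt.1 this
          omega
        obtain ⟨k1, k2⟩ := desub_exact (B := b + 1) (B' := b' + 1) (p := P) (q := Q) hbP
          (by rw [← e1, ← e2, ← f1, ← g1]; omega)
          (by rw [← e1, ← f1, ← g1]; rw [show a + 1 + t - (a + 1) = t by omega]; exact h4)
        have hs : sZ P ≠ sZ Q := by
          rw [e1, e2, sZ_sg, sZ_sg] at h3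
          exact h3
        have e5 : b + 1 + (P - (b + 1)) = P := by omega
        have hlg : ¬ (Lg b ↔ Lg b') := by
          intro h
          apply h5
          rw [f2, g2, h]
        have hpar : (sZ b = sZ b' ↔ j % 2 = 1) := by
          have hflip : (sZ b = sZ b' ↔ ¬ (sZ a = sZ a')) := by
            by_cases h9 : Lg a
            · have h10 : ¬ Lg a' := fun h => h5 (iff_of_true h9 h)
              rw [f3 h9, g4 h10]
              cases sZ b <;> cases sZ b' <;> simp
            · have h10 : Lg a' := by
                by_contra h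
                exact h5 (iff_of_false h9 h)
              rw [f4 h9, g3 h10]
              cases sZ b <;> cases sZ b' <;> simp
          rw [hflip, h6]
          omega
        have r1 := ih b b' (P - (b + 1)) hbb (by omega) (by rw [e5, ← k1]; exact hs) k2 hlg hpar
        have r2 := (Xlem j (b + 1) (b' + 1) (P - (b + 1)) (by omega) (by omega)
          (by rw [e5, ← k1]; exact hs) k2).2
        rw [e5] at r2
        have s1 := sg_eq P
        have s2 := sg_eq (b + 1)
        have f3 : fib (j + 1 + 2) = fib (j + 1) + fib (j + 2) := Nat.fib_add_two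
        omega
      · exfalso
        have h9 : ¬ Lg (a' + 1 + t) := fun h => h8 (h7.2 h)
        obtain ⟨T, rfl⟩ : ∃ T, t = T + 1 := ⟨t - 1, by omega⟩
        have g1 := (A1 (m := a + 1 + T) h8).2
        have g2 := (A1 (m := a' + 1 + T) h9).2
        have g3 := (U_eq.1 (h4 T (by omega))).2
        rw [g1, g2] at g3
        apply h3
        have : a + 1 + (T + 1) = a + 1 + T + 1 := rfl
        rw [this]
        have : a' + 1 + (T + 1) = a' + 1 + T + 1 := rfl
        rw [this]
        revert g3
        cases sZ (a + 1 + T + 1) <;> cases sZ (a' + 1 + T + 1) <;> simp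
    · obtain ⟨k, rfl⟩ : ∃ k, j = k + 1 := ⟨j - 1, by omega⟩
      obtain ⟨-, b1, -⟩ := Xshort k (i := a + 1) (i' := a' + 1) (t := t) (by omega) (by
        have c1 : k + 1 + 1 + 5 = k + 7 := by omega
        have c2 : k + 1 + 1 + 3 = k + 5 := by omega
        rw [c1, c2] at h2
        exact h2) h0 h7 h4
      exact b1 (by omega)

end Pool.Agent.K3h30.Zeck
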