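import Pool.Agent.K3h30.Zeck.Basic

set_option autoImplicit false

namespace Pool.Agent.K3h30.Zeck

open Nat

/-- table of the signs -/
def tS (n : ℕ) : Bool := ([false, true, true, true, false, true, false, false, true, false, false, false, true, true, false, false, false, true] : List Bool).getD n false

/-- table of the lengths -/
def tL (n : ℕ) : Bool := ([true, false, true, true, false, true, false, true, true, false, true, true, false, true, false, true, true, false] : List Bool).getD n false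

theorem table : ∀ n < 18, sZ n = tS n ∧ (Lg n ↔ tL n = true) := by
  have s0 := sZ_zero
  have l0 : Lg 0 := Lg_zero
  have s1 : sZ 1 = true := by
    have h := sZ_fib_add 0 0 (by decide)
    rw [s0] at h
    exact h
  have l1 : ¬ Lg 1 := fun h => ((Lg_fib_add 0 0 (by decide)).1 h).1 rfl
  have s2 : sZ 2 = true := by
    have h := sZ_fib_add 1 0 (by decide)
    rw [s0] at h
    exact h
  have l2 : Lg 2 := (Lg_fib_add 1 0 (by decide)).2 ⟨by decide, l0⟩
  have s3 : sZ 3 = true := by
    have h := sZ_fib_add 2 0 (by decide)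
    rw [s0] at h
    exact h
  have l3 : Lg 3 := (Lg_fib_add 2 0 (by decide)).2 ⟨by decide, l0⟩
  have s4 : sZ 4 = false := by
    have h := sZ_fib_add 2 1 (by decide)
    rw [s1] at h
    exact h
  have l4 : ¬ Lg 4 := fun h => l1 ((Lg_fib_add 2 1 (by decide)).1 h).2
  have s5 : sZ 5 = true := by
    have h := sZ_fib_add 3 0 (by decide)
    rw [s0] at h
    exact h
  have l5 : Lg 5 := (Lg_fib_add 3 0 (by decide)).2 ⟨by decide, l0⟩
  have s6 : sZ 6 = false := by
    have h := sZ_fib_add 3 1 (by decide)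
    rw [s1] at h
    exact h
  have l6 : ¬ Lg 6 := fun h => l1 ((Lg_fib_add 3 1 (by decide)).1 h).2
  have s7 : sZ 7 = false := by
    have h := sZ_fib_add 3 2 (by decide)
    rw [s2] at h
    exact h
  have l7 : Lg 7 := (Lg_fib_add 3 2 (by decide)).2 ⟨by decide, l2⟩
  have s8 : sZ 8 = true := by
    have h := sZ_fib_add 4 0 (by decide)
    rw [s0] at h
    exact h
  have l8 : Lg 8 := (Lg_fib_add 4 0 (by decide)).2 ⟨by decide, l0⟩
  have s9 : sZ 9 = false := by
    have h := sZ_fib_add 4 1 (by decide)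
    rw [s1] at h
    exact h
  have l9 : ¬ Lg 9 := fun h => l1 ((Lg_fib_add 4 1 (by decide)).1 h).2
  have s10 : sZ 10 = false := by
    have h := sZ_fib_add 4 2 (by decide)
    rw [s2] at h
    exact h
  have l10 : Lg 10 := (Lg_fib_add 4 2 (by decide)).2 ⟨by decide, l2⟩
  have s11 : sZ 11 = false := by
    have h := sZ_fib_add 4 3 (by decide)
    rw [s3] at h
    exact h
  have l11 : Lg 11 := (Lg_fib_add 4 3 (by decide)).2 ⟨by decide, l3⟩
  have s12 : sZ 12 = true := by
    have h := sZ_fib_add 4 4 (by decide)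
    rw [s4] at h
    exact h
  have l12 : ¬ Lg 12 := fun h => l4 ((Lg_fib_add 4 4 (by decide)).1 h).2
  have s13 : sZ 13 = true := by
    have h := sZ_fib_add 5 0 (by decide)
    rw [s0] at h
    exact h
  have l13 : Lg 13 := (Lg_fib_add 5 0 (by decide)).2 ⟨by decide, l0⟩
  have s14 : sZ 14 = false := by
    have h := sZ_fib_add 5 1 (by decide)
    rw [s1] at h
    exact h
  have l14 : ¬ Lg 14 := fun h => l1 ((Lg_fib_add 5 1 (by decide)).1 h).2
  have s15 : sZ 15 = false := by
    have h := sZ_fib_add 5 2 (by decide)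
    rw [s2] at h
    exact h
  have l15 : Lg 15 := (Lg_fib_add 5 2 (by decide)).2 ⟨by decide, l2⟩
  have s16 : sZ 16 = false := by
    have h := sZ_fib_add 5 3 (by decide)
    rw [s3] at h
    exact h
  have l16 : Lg 16 := (Lg_fib_add 5 3 (by decide)).2 ⟨by decide, l3⟩
  have s17 : sZ 17 = true := by
    have h := sZ_fib_add 5 4 (by decide)
    rw [s4] at h
    exact h
  have l17 : ¬ Lg 17 := fun h => l4 ((Lg_fib_add 5 4 (by decide)).1 h).2
  intro n hn
  interval_cases n
  · exact ⟨s0, iff_of_true l0 rfl⟩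
  · exact ⟨s1, iff_of_false l1 (by decide)⟩
  · exact ⟨s2, iff_of_true l2 rfl⟩
  · exact ⟨s3, iff_of_true l3 rfl⟩
  · exact ⟨s4, iff_of_false l4 (by decide)⟩
  · exact ⟨s5, iff_of_true l5 rfl⟩
  · exact ⟨s6, iff_of_false l6 (by decide)⟩
  · exact ⟨s7, iff_of_true l7 rfl⟩
  · exact ⟨s8, iff_of_true l8 rfl⟩
  · exact ⟨s9, iff_of_false l9 (by decide)⟩
  · exact ⟨s10, iff_of_true l10 rfl⟩
  · exact ⟨s11, iff_of_true l11 rfl⟩
  · exact ⟨s12, iff_of_false l12 (by decide)⟩
  · exact ⟨s13, iff_of_true l13 rfl⟩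
  · exact ⟨s14, iff_of_false l14 (by decide)⟩
  · exact ⟨s15, iff_of_true l15 rfl⟩
  · exact ⟨s16, iff_of_true l16 rfl⟩
  · exact ⟨s17, iff_of_false l17 (by decide)⟩

end Pool.Agent.K3h30.Zeck
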