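import Pool.Agent.K3h30.Zeck.Window

set_option autoImplicit false

namespace Pool.Agent.K3h30.Zeck

open Nat

/-- table of the numbers of long letters -/
def tC (n : ℕ) : ℕ := ((List.range n).filter (fun m => tL m)).length

theorem table_cn : ∀ n ≤ 18, cn n = tC n := by
  intro n
  induction n with
  | zero => intro _; rw [cn_zero]; rfl
  | succ n ih =>
    intro hn
    have h1 := ih (by omega)
    have h2 := (table n (by omega)).2
    have h3 : tC (n + 1) = tC n + if tL n = true then 1 else 0 := by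
      unfold tC
      rw [List.range_succ, List.filter_append, List.length_append]
      congr 1
      by_cases h : tL n = true
      · simp [h]
      · simp [h]
    rw [cn_succ, h1, h3]
    by_cases h : Lg n
    · rw [if_pos h, if_pos (h2.1 h)]
    · rw [if_neg h, if_neg (fun h' => h (h2.2 h'))]

/-- table version of `W` -/
def tW (i j t : ℕ) : Bool :=
  (List.range t).all (fun r => (tS (i + r) == tS (j + r)) && (tL (i + r) == tL (j + r)))

theorem table_W {i j t : ℕ} (hi : i + t ≤ 18) (hj : j + t ≤ 18) (h : W i j t) : tW i j t = true := by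
  unfold tW
  rw [List.all_eq_true]
  intro r hr
  rw [List.mem_range] at hr
  obtain ⟨h1, h2⟩ := U_eq.1 (h r hr)
  obtain ⟨h3, h4⟩ := table (i + r) (by omega)
  obtain ⟨h5, h6⟩ := table (j + r) (by omega)
  rw [h3, h5] at h2
  rw [h4, h6] at h1
  rw [Bool.and_eq_true]
  refine ⟨by rw [h2]; simp, ?_⟩
  have : tL (i + r) = tL (j + r) := by
    cases h7 : tL (i + r) <;> cases h8 : tL (j + r)
    · rfl
    · rw [h7, h8] at h1; simp at h1
    · rw [h7, h8] at h1; simp at h1
    · rfl
  rw [this]; simp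

/-- the exceptional pairs -/
def Exc (p q : ℕ) : Prop :=
  (p = 1 ∧ q = 2) ∨ (p = 1 ∧ q = 3) ∨ (p = 1 ∧ q = 5) ∨ (p = 0 ∧ q = 4) ∨ (p = 0 ∧ q = 6) ∨
    (p = 1 ∧ q = 8)

instance (p q : ℕ) : Decidable (Exc p q) := by unfold Exc; infer_instance

theorem Exc.le {p q : ℕ} (h : Exc p q) : p ≤ 1 := by
  unfold Exc at h
  omega

theorem sg_fibsum (j : ℕ) (hj : 1 ≤ j) : sg (fib (j + 3) + fib (j + 1)) = fib (j + 4) + fib (j + 2) := by
  rw [sg_fib_add (j + 1) (fib (j + 1)) ((Nat.fib_lt_fib_succ (by omega)))]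
  obtain ⟨i, rfl⟩ : ∃ i, j = i + 1 := ⟨j - 1, by omega⟩
  rw [sg_fib i]

/-- finite check for pairs with different signs: all windows ending at `q < N` -/
def chkX (N B C : ℕ) : Bool :=
  (List.range N).all fun i => (List.range N).all fun i' => (List.range N).all fun t =>
    !(decide (i < i') && decide (i' + t < N) && (tS (i + t) != tS (i' + t)) && tW i i' t) ||
      (decide (t ≤ B) && decide (tC (i + t) ≤ C + tC i))

/-- finite check for pairs with equal signs and different lengths -/
def chkY (N B C : ℕ) : Bool :=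
  (List.range N).all fun i => (List.range N).all fun i' => (List.range N).all fun t =>
    !(decide (i < i') && decide (i' + t < N) && (tS (i + t) == tS (i' + t)) &&
        (tL (i + t) != tL (i' + t)) && tW i i' t) ||
      ((decide (t + 2 ≤ B) && decide (tC (i + t) + 1 ≤ C + tC i)) ||
        decide (Exc (i + t) (i' + t)))

theorem tSL {n : ℕ} (h : n < 18) : tS n = sZ n := (table n h).1.symm

theorem tLL {n : ℕ} (h : n < 18) : tL n = decide (Lg n) := by
  have := (table n h).2
  by_cases h1 : Lg n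
  · rw [this.1 h1]; simp [h1]
  · have h2 : tL n ≠ true := fun h2 => h1 (this.2 h2)
    simp only [Bool.not_eq_true] at h2
    rw [h2]; simp [h1]

theorem X_of_chk {N B C : ℕ} (hN : N ≤ 18) (hc : chkX N B C = true) {i i' t : ℕ} (h1 : i < i')
    (h2 : i' + t < N) (h3 : sZ (i + t) ≠ sZ (i' + t)) (h4 : W i i' t) :
    t ≤ B ∧ cn (i + t) ≤ C + cn i := by
  unfold chkX at hc
  rw [List.all_eq_true] at hc
  have e1 := hc i (List.mem_range.2 (by omega))
  rw [List.all_eq_true] at e1
  have e2 := e1 i' (List.mem_range.2 (by omega))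
  rw [List.all_eq_true] at e2
  have e3 := e2 t (List.mem_range.2 (by omega))
  rw [tSL (by omega), tSL (by omega), table_W (by omega) (by omega) h4, ← table_cn (i + t) (by omega),
    ← table_cn i (by omega)] at e3
  simpa [h1, h2, h3] using e3

theorem Y_of_chk {N B C : ℕ} (hN : N ≤ 18) (hc : chkY N B C = true) {i i' t : ℕ} (h1 : i < i')
    (h2 : i' + t < N) (h3 : sZ (i + t) = sZ (i' + t)) (h3' : ¬ (Lg (i + t) ↔ Lg (i' + t)))
    (h4 : W i i' t) :
    (t + 2 ≤ B ∧ cn (i + t) + 1 ≤ C + cn i) ∨ Exc (i + t) (i' + t) := by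
  unfold chkY at hc
  rw [List.all_eq_true] at hc
  have e1 := hc i (List.mem_range.2 (by omega))
  rw [List.all_eq_true] at e1
  have e2 := e1 i' (List.mem_range.2 (by omega))
  rw [List.all_eq_true] at e2
  have e3 := e2 t (List.mem_range.2 (by omega))
  rw [tSL (by omega), tSL (by omega), tLL (by omega), tLL (by omega),
    table_W (by omega) (by omega) h4, ← table_cn (i + t) (by omega),
    ← table_cn i (by omega)] at e3
  have h5 : decide (Lg (i + t)) ≠ decide (Lg (i' + t)) := by
    rw [ne_eq, decide_eq_decide]; exact h3'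
  simpa [h1, h2, h3, h5] using e3

theorem Ybase {i i' t : ℕ} (h1 : i < i')
    (h2 : i' + t < 11) (h3 : sZ (i + t) = sZ (i' + t)) (h3' : ¬ (Lg (i + t) ↔ Lg (i' + t)))
    (h4 : W i i' t) :
    (t + 2 ≤ 2 ∧ cn (i + t) + 1 ≤ 1 + cn i) ∨ Exc (i + t) (i' + t) :=
  Y_of_chk (by norm_num) (by decide +kernel) h1 h2 h3 h3' h4

theorem Xbase0 {i i' t : ℕ} (h1 : i < i')
    (h2 : i' + t < 7) (h3 : sZ (i + t) ≠ sZ (i' + t)) (h4 : W i i' t) :
    t ≤ 1 ∧ cn (i + t) ≤ 1 + cn i :=
  X_of_chk (N := 7) (by norm_num) (by decide +kernel) h1 h2 h3 h4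

theorem Xbase1 {i i' t : ℕ} (h1 : i < i')
    (h2 : i' + t < 11) (h3 : sZ (i + t) ≠ sZ (i' + t)) (h4 : W i i' t) :
    t ≤ 2 ∧ cn (i + t) ≤ 1 + cn i :=
  X_of_chk (N := 11) (by norm_num) (by decide +kernel) h1 h2 h3 h4

/-- previous letters of two positions, if these letters agree and exactly one of the positions is
short -/
theorem both_long {a b : ℕ} (h : U a = U b) (h' : ¬ (Lg (a + 1) ↔ Lg (b + 1))) :
    ∃ P Q, a = sg P ∧ b = sg Q ∧ sZ P = sZ Q ∧ ¬ (Lg P ↔ Lg Q) := by
  obtain ⟨h1, h2⟩ := U_eq.1 h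
  have hab : Lg a ∧ Lg b := by
    by_cases h3 : Lg (a + 1)
    · have h4 : ¬ Lg (b + 1) := fun h4 => h' (iff_of_true h3 h4)
      exact ⟨h1.2 (A1 h4).1, (A1 h4).1⟩
    · exact ⟨(A1 h3).1, h1.1 (A1 h3).1⟩
  obtain ⟨P, rfl⟩ := block_of_Lg hab.1
  obtain ⟨Q, rfl⟩ := block_of_Lg hab.2
  refine ⟨P, Q, rfl, rfl, ?_, ?_⟩
  · rw [sZ_sg, sZ_sg] at h2; exact h2
  · intro h3
    apply h'
    have key : ∀ R, (Lg (sg R + 1) ↔ ¬ Lg R) := by
      intro R
      constructor
      · intro h4 h5
        exact not_Lg_sg_succ R h5 h4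
      · intro h5
        have : sg (R + 1) = sg R + 1 := by rw [sg_succ, if_neg h5]
        rw [← this]
        exact Lg_sg _
    rw [key, key, h3]

/-- the image of an exceptional pair has equal signs only for the pair `(0, 4)` -/
theorem exc_image {P Q : ℕ} (h : Exc P Q) (h' : sZ (sg P + 1) = sZ (sg Q + 1)) :
    Exc (sg P + 1) (sg Q + 1) := by
  have g0 : sg 0 = 0 := sg_zero
  have g1 : sg 1 = 2 := sg_fib 0
  have g2 : sg 2 = 3 := sg_fib 1
  have g3 : sg 3 = 5 := sg_fib 2
  have g4 : sg 4 = 7 := by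
    have := sg_fib_add 2 1 (by decide)
    rw [g1] at this
    exact this
  have g5 : sg 5 = 8 := sg_fib 3
  have g6 : sg 6 = 10 := by
    have := sg_fib_add 3 1 (by decide)
    rw [g1] at this
    exact this
  have g8 : sg 8 = 13 := sg_fib 4
  unfold Exc at h
  rcases h with ⟨rfl, rfl⟩ | ⟨rfl, rfl⟩ | ⟨rfl, rfl⟩ | ⟨rfl, rfl⟩ | ⟨rfl, rfl⟩ | ⟨rfl, rfl⟩
  · rw [g1, g2, ← tSL (by norm_num), ← tSL (by norm_num)] at h'
    exact absurd h' (by decide)
  · rw [g1, g3, ← tSL (by norm_num), ← tSL (by norm_num)] at h'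
    exact absurd h' (by decide)
  · rw [g1, g5, ← tSL (by norm_num), ← tSL (by norm_num)] at h'
    exact absurd h' (by decide)
  · rw [g0, g4]
    unfold Exc
    omega
  · rw [g0, g6, ← tSL (by norm_num), ← tSL (by norm_num)] at h'
    exact absurd h' (by decide)
  · rw [g1, g8, ← tSL (by norm_num), ← tSL (by norm_num)] at h'
    exact absurd h' (by decide)

theorem Ylem : ∀ j i i' t : ℕ, i < i' → i' + t < fib (j + 6) + fib (j + 4) →
    sZ (i + t) = sZ (i' + t) → ¬ (Lg (i + t) ↔ Lg (i' + t)) → W i i' t →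
    (t + 2 ≤ fib (j + 3) ∧ cn (i + t) + 1 ≤ fib (j + 2) + cn i) ∨ Exc (i + t) (i' + t) := by
  intro j
  induction j with
  | zero =>
    intro i i' t h1 h2 h3 h4 h5
    exact Ybase h1 h2 h3 h4 h5
  | succ j ih =>
    intro i i' t h1 h2 h3 h4 h5
    have f3 : fib (j + 1 + 3) = fib (j + 2) + fib (j + 3) := Nat.fib_add_two
    have f2 : fib (j + 1 + 2) = fib (j + 1) + fib (j + 2) := Nat.fib_add_two
    have f2' : fib (j + 3) = fib (j + 1) + fib (j + 2) := Nat.fib_add_two
    have p1 : 0 < fib (j + 1) := fib_pos.2 (by omega)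
    have p2 : 0 < fib (j + 2) := fib_pos.2 (by omega)
    rcases Nat.eq_zero_or_pos t with h0 | h0
    · subst h0
      left
      simp only [add_zero]
      omega
    · obtain ⟨T, rfl⟩ : ∃ T, t = T + 1 := ⟨t - 1, by omega⟩
      have hU : U (i + T) = U (i' + T) := h5 T (by omega)
      obtain ⟨P, Q, e1, e2, e3, e4⟩ := both_long hU h4
      have hPQ : P < Q := by
        rw [← sg_strictMono.lt_iff_lt, ← e1, ← e2]; omega
      have hQ : Q < fib (j + 6) + fib (j + 4) := by
        rw [← sg_strictMono.lt_iff_lt, ← e2]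
        have := sg_fibsum (j + 3) (by omega)
        have c1 : j + 3 + 3 = j + 6 := rfl
        have c2 : j + 3 + 1 = j + 4 := rfl
        have c3 : j + 3 + 4 = j + 1 + 6 := by omega
        have c4 : j + 3 + 2 = j + 1 + 4 := by omega
        rw [c1, c2, c3, c4] at this
        omega
      obtain ⟨t', I, I', a1, a2, a3, a4, a5⟩ := desub T i i' P Q e1 e2 (h5.mono (by omega))
      have hcn : cn (i + (T + 1)) = P + 1 := by
        rw [← add_assoc, cn_succ, e1, cn_sg, if_pos (Lg_sg P)]
      have e3' := e3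
      have e4' := e4
      rw [a1, a2] at e3' e4'
      rcases ih I I' t' (by omega) (by omega) e3' e4' a3 with ⟨b1, b2⟩ | hE
      · left
        rw [← a1] at b2
        rw [hcn]
        omega
      · rw [← a1, ← a2] at hE
        right
        rw [← add_assoc, ← add_assoc, e1, e2]
        apply exc_image hE
        rw [← e1, ← e2]
        exact h3

/-- windows before two positions, exactly one of which is short -/
theorem Xshort (j : ℕ) {i i' t : ℕ} (h1 : i < i') (h2 : i' + t < fib (j + 7) + fib (j + 5))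
    (h0 : 0 < t) (h4 : ¬ (Lg (i + t) ↔ Lg (i' + t))) (h5 : W i i' t) :
    t ≤ fib (j + 4) ∧ (0 < i → t < fib (j + 4)) ∧ cn (i + t) ≤ fib (j + 3) + cn i := by
  have f4 : fib (j + 4) = fib (j + 2) + fib (j + 3) := Nat.fib_add_two
  have f3 : fib (j + 3) = fib (j + 1) + fib (j + 2) := Nat.fib_add_two
  have p1 : 0 < fib (j + 1) := fib_pos.2 (by omega)
  have p2 : 0 < fib (j + 2) := fib_pos.2 (by omega)
  obtain ⟨T, rfl⟩ : ∃ T, t = T + 1 := ⟨t - 1, by omega⟩
  have hU : U (i + T) = U (i' + T) := h5 T (by omega)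
  obtain ⟨P, Q, e1, e2, e3, e4⟩ := both_long hU h4
  have hPQ : P < Q := by
    rw [← sg_strictMono.lt_iff_lt, ← e1, ← e2]; omega
  have hQ : Q < fib (j + 6) + fib (j + 4) := by
    rw [← sg_strictMono.lt_iff_lt, ← e2]
    have := sg_fibsum (j + 3) (by omega)
    have c1 : j + 3 + 3 = j + 6 := rfl
    have c2 : j + 3 + 1 = j + 4 := rfl
    have c3 : j + 3 + 4 = j + 7 := by omega
    have c4 : j + 3 + 2 = j + 5 := by omega
    rw [c1, c2, c3, c4] at this
    omega
  obtain ⟨t', I, I', a1, a2, a3, a4, a5⟩ := desub T i i' P Q e1 e2 (h5.mono (by omega))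
  have hcn : cn (i + (T + 1)) = P + 1 := by
    rw [← add_assoc, cn_succ, e1, cn_sg, if_pos (Lg_sg P)]
  have e3' := e3
  have e4' := e4
  rw [a1, a2] at e3' e4'
  rcases Ylem j I I' t' (by omega) (by omega) e3' e4' a3 with ⟨b1, b2⟩ | hE
  · rw [← a1] at b2
    rw [hcn]
    omega
  · rw [← a1, ← a2] at hE
    have hP := hE.le
    rw [hcn]
    have g0 : sg 0 = 0 := sg_zero
    have g1 : sg 1 = 2 := sg_fib 0
    have : sg P ≤ 2 := by
      rcases Nat.le_one_iff_eq_zero_or_eq_one.1 hP with h | h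
      · rw [h, g0]; omega
      · rw [h, g1]
    have hI : cn i ≤ P := by
      have := cn_mono (a := i) (b := sg P) (by omega)
      rwa [cn_sg] at this
    omega

/-- The number of letters and of long letters of a window before two positions of different signs,
the second of which is less than the Lucas number `L (j + 4)`. -/
theorem Xlem : ∀ j i i' t : ℕ, i < i' → i' + t < fib (j + 5) + fib (j + 3) →
    sZ (i + t) ≠ sZ (i' + t) → W i i' t →
    t ≤ fib (j + 2) ∧ cn (i + t) ≤ fib (j + 1) + cn i := by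
  intro j
  induction j with
  | zero =>
    intro i i' t h1 h2 h3 h5
    exact Xbase0 h1 h2 h3 h5
  | succ j ih =>
    intro i i' t h1 h2 h3 h5
    rcases Nat.eq_zero_or_pos j with hj | hj
    · subst hj
      exact Xbase1 h1 h2 h3 h5
    rcases Nat.eq_zero_or_pos t with h0 | h0
    · subst h0
      simp
    by_cases h4 : (Lg (i + t) ↔ Lg (i' + t))
    · by_cases h6 : Lg (i + t)
      · obtain ⟨P, e1⟩ := block_of_Lg h6
        obtain ⟨Q, e2⟩ := block_of_Lg (h4.1 h6)
        have hPQ : P < Q := by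
          rw [← sg_strictMono.lt_iff_lt, ← e1, ← e2]; omega
        have hQ : Q < fib (j + 5) + fib (j + 3) := by
          rw [← sg_strictMono.lt_iff_lt, ← e2]
          have := sg_fibsum (j + 2) (by omega)
          have c1 : j + 2 + 3 = j + 5 := rfl
          have c2 : j + 2 + 1 = j + 3 := rfl
          have c3 : j + 2 + 4 = j + 1 + 5 := by omega
          have c4 : j + 2 + 2 = j + 1 + 3 := by omega
          rw [c1, c2, c3, c4] at this
          omega
        obtain ⟨t', I, I', a1, a2, a3, a4, a5⟩ := desub t i i' P Q e1 e2 h5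
        have e3 : sZ P ≠ sZ Q := by
          rw [e1, e2, sZ_sg, sZ_sg] at h3
          exact h3
        rw [a1, a2] at e3
        obtain ⟨b1, b2⟩ := ih I I' t' (by omega) (by omega) e3 a3
        rw [← a1] at b2
        have f3 : fib (j + 1 + 2) = fib (j + 1) + fib (j + 2) := Nat.fib_add_two
        rw [e1, cn_sg]
        have c5 : j + 1 + 1 = j + 2 := rfl
        rw [c5]
        omega
      · exfalso
        have h7 : ¬ Lg (i' + t) := fun h => h6 (h4.2 h)
        obtain ⟨T, rfl⟩ : ∃ T, t = T + 1 := ⟨t - 1, by omega⟩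
        have g1 := (A1 (m := i + T) h6).2
        have g2 := (A1 (m := i' + T) h7).2
        have g3 := (U_eq.1 (h5 T (by omega))).2
        rw [g1, g2] at g3
        apply h3
        have : i + (T + 1) = i + T + 1 := rfl
        rw [this]
        have : i' + (T + 1) = i' + T + 1 := rfl
        rw [this]
        revert g3
        cases sZ (i + T + 1) <;> cases sZ (i' + T + 1) <;> simp
    · obtain ⟨k, rfl⟩ : ∃ k, j = k + 1 := ⟨j - 1, by omega⟩
      obtain ⟨b1, -, b2⟩ := Xshort k h1 (by
        have c1 : k + 1 + 1 + 5 = k + 7 := by omega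
        have c2 : k + 1 + 1 + 3 = k + 5 := by omega
        rw [c1, c2] at h2
        exact h2) h0 h4 h5
      exact ⟨b1, b2⟩

end Pool.Agent.K3h30.Zeck
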