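import Pool.Agent.K3h30.Zeck.Table

set_option autoImplicit false

namespace Pool.Agent.K3h30.Zeck

open Nat

/-- the letter at `n` -/
def U (n : ℕ) : Bool × Bool := (decide (Lg n), sZ n)

/-- number of long letters before `n` -/
def cn (n : ℕ) : ℕ := Nat.count Lg n

theorem cn_zero : cn 0 = 0 := Nat.count_zero _

theorem cn_succ (n : ℕ) : cn (n + 1) = cn n + if Lg n then 1 else 0 := Nat.count_succ _ _

theorem cn_mono {a b : ℕ} (h : a ≤ b) : cn a ≤ cn b := Nat.count_monotone _ h

theorem sg_eq (n : ℕ) : sg n = n + cn n := by
  induction n with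
  | zero => rw [sg_zero, cn_zero]
  | succ n ih =>
    rw [sg_succ, cn_succ, ih]
    split_ifs <;> omega

theorem cn_sg (n : ℕ) : cn (sg n) = n := by
  induction n with
  | zero => rw [sg_zero, cn_zero]
  | succ n ih =>
    rw [sg_succ]
    split_ifs with h
    · rw [show sg n + 2 = (sg n + 1) + 1 from rfl, cn_succ, cn_succ, ih, if_pos (Lg_sg n),
        if_neg (not_Lg_sg_succ n h)]
    · rw [cn_succ, ih, if_pos (Lg_sg n)]

theorem U_eq {a b : ℕ} : U a = U b ↔ ((Lg a ↔ Lg b) ∧ sZ a = sZ b) := by
  unfold U
  rw [Prod.mk.injEq, decide_eq_decide]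

/-- equality of windows -/
def W (i j t : ℕ) : Prop := ∀ r < t, U (i + r) = U (j + r)

theorem W.mono {i j t t' : ℕ} (h : W i j t) (h' : t' ≤ t) : W i j t' := fun r hr => h r (by omega)

/-- desubstitution of a window that ends at the end of a block on both sides -/
theorem desub : ∀ t i j p q : ℕ, i + t = sg p → j + t = sg q → W i j t →
    ∃ t' i' j', p = i' + t' ∧ q = j' + t' ∧ W i' j' t' ∧ t + cn i' ≤ t' + cn p ∧
      p ≤ t' + cn i := by
  intro t
  induction t using Nat.strong_induction_on with
  | _ t ih =>
    intro i j p q hi hj hW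
    rcases Nat.eq_zero_or_pos t with h0 | h0
    · subst h0
      refine ⟨0, p, q, rfl, rfl, fun r hr => by omega, by omega, ?_⟩
      rw [show i = sg p by omega, cn_sg]
      omega
    · obtain ⟨P, rfl⟩ : ∃ P, p = P + 1 := ⟨p - 1, by
        have : p ≠ 0 := fun h => by rw [h, sg_zero] at hi; omega
        omega⟩
      obtain ⟨Q, rfl⟩ : ∃ Q, q = Q + 1 := ⟨q - 1, by
        have : q ≠ 0 := fun h => by rw [h, sg_zero] at hj; omega
        omega⟩
      have hlast := hW (t - 1) (by omega)
      rw [U_eq] at hlast
      by_cases hP : Lg P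
      · have e1 : sg (P + 1) = sg P + 2 := by rw [sg_succ, if_pos hP]
        have e2 : i + (t - 1) = sg P + 1 := by omega
        rw [e2] at hlast
        have hQ : Lg Q := by
          by_contra hQ
          have e3 : sg (Q + 1) = sg Q + 1 := by rw [sg_succ, if_neg hQ]
          have e4 : j + (t - 1) = sg Q := by omega
          rw [e4] at hlast
          exact not_Lg_sg_succ P hP (hlast.1.2 (Lg_sg Q))
        have e3 : sg (Q + 1) = sg Q + 2 := by rw [sg_succ, if_pos hQ]
        have e4 : j + (t - 1) = sg Q + 1 := by omega
        rw [e4, sZ_sg_succ P hP, sZ_sg_succ Q hQ] at hlast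
        have hs : sZ P = sZ Q := by
          have := hlast.2
          revert this
          cases sZ P <;> cases sZ Q <;> simp
        have hU : U P = U Q := U_eq.2 ⟨iff_of_true hP hQ, hs⟩
        have hcP : cn (P + 1) = cn P + 1 := by rw [cn_succ, if_pos hP]
        rcases Nat.lt_or_ge t 2 with h2 | h2
        · have ht : t = 1 := by omega
          subst ht
          refine ⟨1, P, Q, rfl, rfl, ?_, by omega, ?_⟩
          · intro r hr
            have : r = 0 := by omega
            subst this
            exact hU
          · rw [show i = sg P + 1 by omega, cn_succ, cn_sg, if_pos (Lg_sg P)]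
            omega
        · obtain ⟨t', i', j', a1, a2, a3, a4, a5⟩ := ih (t - 2) (by omega) i j P Q (by omega)
            (by omega) (hW.mono (by omega))
          refine ⟨t' + 1, i', j', by omega, by omega, ?_, by omega, by omega⟩
          intro r hr
          rcases Nat.lt_or_ge r t' with h3 | h3
          · exact a3 r h3
          · have : r = t' := by omega
            subst this
            rw [← a1, ← a2]
            exact hU
      · have e1 : sg (P + 1) = sg P + 1 := by rw [sg_succ, if_neg hP]
        have e2 : i + (t - 1) = sg P := by omega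
        rw [e2] at hlast
        have hQ : ¬ Lg Q := by
          intro hQ
          have e3 : sg (Q + 1) = sg Q + 2 := by rw [sg_succ, if_pos hQ]
          have e4 : j + (t - 1) = sg Q + 1 := by omega
          rw [e4] at hlast
          exact not_Lg_sg_succ Q hQ (hlast.1.1 (Lg_sg P))
        have e3 : sg (Q + 1) = sg Q + 1 := by rw [sg_succ, if_neg hQ]
        have e4 : j + (t - 1) = sg Q := by omega
        rw [e4, sZ_sg, sZ_sg] at hlast
        have hU : U P = U Q := U_eq.2 ⟨iff_of_false hP hQ, hlast.2⟩
        have hcP : cn (P + 1) = cn P := by rw [cn_succ, if_neg hP]; omega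
        obtain ⟨t', i', j', a1, a2, a3, a4, a5⟩ := ih (t - 1) (by omega) i j P Q (by omega)
          (by omega) (hW.mono (by omega))
        refine ⟨t' + 1, i', j', by omega, by omega, ?_, by omega, by omega⟩
        intro r hr
        rcases Nat.lt_or_ge r t' with h3 | h3
        · exact a3 r h3
        · have : r = t' := by omega
          subst this
          rw [← a1, ← a2]
          exact hU

/-- windows with the same letters have the same number of long letters -/
theorem W.cn_eq {i j t : ℕ} (h : W i j t) : cn (i + t) + cn j = cn (j + t) + cn i := by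
  induction t with
  | zero => simp [add_comm]
  | succ t ih =>
    have h1 := ih (h.mono (by omega))
    have h2 := (U_eq.1 (h t (by omega))).1
    rw [← add_assoc, ← add_assoc, cn_succ, cn_succ]
    by_cases h3 : Lg (i + t)
    · rw [if_pos h3, if_pos (h2.1 h3)]; omega
    · rw [if_neg h3, if_neg (fun h => h3 (h2.2 h))]; omega

/-- desubstitution of a window that consists of full blocks on both sides -/
theorem desub_exact {B B' p q : ℕ} (hB : B ≤ p) (hl : sg p + sg B' = sg q + sg B)
    (hW : W (sg B) (sg B') (sg p - sg B)) :
    q = B' + (p - B) ∧ W B B' (p - B) := by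
  have hBs : sg B ≤ sg p := sg_strictMono.monotone hB
  obtain ⟨t', i', j', a1, a2, a3, -, a5⟩ := desub (sg p - sg B) (sg B) (sg B') p q (by omega)
    (by omega) hW
  rw [cn_sg] at a5
  -- the window starting at `B`
  obtain ⟨d, hd⟩ : ∃ d, B = i' + d := ⟨B - i', by omega⟩
  have hW2 : W B (j' + d) (p - B) := by
    intro r hr
    have := a3 (d + r) (by omega)
    rw [← add_assoc, ← add_assoc] at this
    rw [hd]
    exact this
  have e1 := hW2.cn_eq
  have e2 : B + (p - B) = p := by omega
  have e3 : j' + d + (p - B) = q := by omega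
  rw [e2, e3] at e1
  have e4 : sg (j' + d) = sg B' := by
    have h1 := sg_eq p
    have h2 := sg_eq q
    have h3 := sg_eq B
    have h4 := sg_eq (j' + d)
    omega
  have e5 : j' + d = B' := sg_strictMono.injective e4
  rw [e5] at hW2
  exact ⟨by omega, hW2⟩

end Pool.Agent.K3h30.Zeck
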